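import Pool.Agent.H65.EN.Defs

/-!
# The end without loss in the mean: targets (helper65)

Page: H65_E21_END.md. Fourier side: EXV KLI COX BXX PXC. Arithmetic: TRI CON UNF MUW NOD CND ZER WPM
WQT DSM. Real place: PCS RCN RSM. Abnormal denominators: ABQ ABN. Normal denominators: ARX LOX
MEX. Result: MX.
-/

set_option autoImplicit false

open Finset MeasureTheory
open scoped Polynomial

namespace Pool.Agent.H65.EN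

open Pool.Agent.H24.CL Pool.Agent.H24.LV Pool.Agent.H31.LV Pool.Agent.H50.LV

/-! ### The Fourier side -/

/-- EXV: the functional as a sum over the shifts. -/
def T_EXV : Prop := ∀ (k q N : ℕ) (f : Fin k → ℤ) (η : Fin k → ℝ) (τ ξ : ℝ), 1 ≤ q → 1 ≤ N →
  (N : ℝ) * VF q f N η τ ξ ≤
    1 + 2 * ‖∑ h ∈ Ico 1 N, (GF q f h * KP N η τ h) * ee (ξ * h)‖

/-- KLI: the kernel depends on the coefficients in a Lipschitz way. -/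
def T_KLI : Prop := ∀ (k N h : ℕ) (η η' : Fin k → ℝ) (τ ρ : ℝ), 1 ≤ N → h ≤ N → -1 ≤ τ → τ ≤ 0 →
  0 ≤ ρ → (∀ i : Fin k, i.val ≠ 0 → |η i * (N : ℝ) ^ (i.val + 1) -
    η' i * (N : ℝ) ^ (i.val + 1)| ≤ ρ) →
  ‖KP N η τ h - KP N η' 0 h‖ ≤ 2 / N + 16 * k * ρ

/-- COX: the cover by small cells. -/
def T_COX : Prop := ∀ (k N M₁ : ℕ) (R M' : ℝ) (Q : Set ℕ)
  (S : ℕ → (Fin k → ℤ) → (Fin k → ℤ) → Set UnitAddCircle), 1 ≤ N → 1 ≤ M₁ → 1 ≤ R →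
  (∀ (q : ℕ) (f c : Fin k → ℤ), q ∈ Q → 1 ≤ q → (q : ℝ) ≤ R → Prim q f →
    ∀ (η : Fin k → ℝ) (τ ξ : ℝ), (∀ i : Fin k, i.val ≠ 0 → |η i * (N : ℝ) ^ (i.val + 1) -
      c i / M₁| ≤ 1 / M₁) → -1 ≤ τ → τ ≤ 0 → 1 / M' ≤ VF q f N η τ ξ →
      (ξ : UnitAddCircle) ∈ S q f c) →
  WQ k N R M' Q ⊆ ⋃ q ∈ Icc 1 ⌊R⌋₊, ⋃ f ∈ Fq k q, ⋃ c ∈ Dc k (M₁ * (⌈R⌉₊ + 1)),
    Set.pi Set.univ (BxM M₁ N q f c {y | q ∈ Q ∧ Prim q f ∧ y ∈ S q f c})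

/-- BXX: the measure of a small box. -/
def T_BXX : Prop := ∀ (k N M₁ q : ℕ) (f c : Fin k → ℤ) (S : Set UnitAddCircle), 1 ≤ k → 1 ≤ N →
  1 ≤ M₁ → (volume : Measure (X k)).real (Set.pi Set.univ (BxM M₁ N q f c S)) ≤
    volume.real S * N / ((N : ℝ) ^ (KN k) * (M₁ : ℝ) ^ (k - 1))

/-- PXC: Chebyshev's inequality with classes. -/
def T_PXC : Prop := ∀ k s : ℕ, 2 ≤ s → ∃ C : ℝ, 1 ≤ C ∧ ∀ (N T : ℕ) (a : ℕ → ℂ) (c : ℕ → ℕ),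
  1 ≤ N → (∀ h ∈ Ico 1 N, 1 ≤ c h ∧ c h ∣ Nat.factorial k * h) → ((Ico 1 N).image c).card ≤ T →
  volume.real {y : UnitAddCircle | 1 ≤ ‖∑ h ∈ Ico 1 N, a h * e (h • y)‖} ≤
    C * ((T : ℝ) * (1 + Real.log N)) ^ s *
      ∑ h ∈ Ico 1 N, ((h : ℝ) / c h) ^ (s - 2) * ‖a h‖ ^ s

/-! ### Arithmetic -/

/-- TRI: triangular counting. -/
def T_TRI : Prop := ∀ (n : ℕ) (S : Finset (Fin n → ℤ)) (s : Fin n → ℕ),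
  (∀ (j : Fin n), ∀ f ∈ S,
    ((S.filter fun g => ∀ i, j < i → g i = f i).image fun g => g j).card ≤ s j) →
  S.card ≤ ∏ j, s j

/-- CON: the content. -/
def T_CON : Prop := ∀ (k q h : ℕ) (f : Fin k → ℤ), 1 ≤ q → Prim q f →
  ct q f h ∣ Nat.factorial k * h ∧ Nat.gcd h q ∣ ct q f h

open Classical in
/-- UNF: unfolding. -/
def T_UNF : Prop := ∀ k s q h c : ℕ, 2 ≤ k → 1 ≤ q → 1 ≤ h → c ∣ q →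
  ∑ f ∈ (Fq k q).filter (fun f => Prim q f ∧ ct q f h = c), ‖GF q f h‖ ^ s ≤
    (Nat.factorial k : ℝ) * (c : ℝ) ^ (k - 1) * Wd (k - 1) s (q / c)

/-- MUW: the moments are multiplicative. -/
def T_MUW : Prop := ∀ d s q₁ q₂ : ℕ, 1 ≤ q₁ → 1 ≤ q₂ → q₁.Coprime q₂ →
  Wd d s (q₁ * q₂) ≤ Wd d s q₁ * Wd d s q₂

/-- NOD: a complete sum to a prime power is controlled by one disc. -/
def T_NOD : Prop := ∀ d : ℕ, 2 ≤ d → ∃ C : ℝ, 1 ≤ C ∧ ∀ (p m : ℕ) (F : ℤ[X]) (l : ℤ), p.Prime →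
  F.natDegree ≤ d → Pool.Agent.H26.LV.Prm p F → Pool.Agent.H26.LV.AA (p ^ m) F l = 0 ∨
  ∃ i v y : ℕ, i ≤ v ∧ v ≤ m ∧ v ≤ d * i ∧ y < p ^ i ∧
    Pool.Agent.H26.LV.Vge p v (Pool.Agent.H26.LV.dsc p i (y : ℤ) F) ∧
    (p : ℤ) ^ (v - i) ∣ l - (Polynomial.derivative F).eval (y : ℤ) ∧
    Pool.Agent.H26.LV.AA (p ^ m) F l ≤ C * ((m : ℝ) + 1) ^ 2 / (p : ℝ) ^ (2 * i + (m - v))

open Classical in
/-- CND: the number of the coefficients with a given disc. -/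
def T_CND : Prop := ∀ d p m i v y : ℕ, 1 ≤ d → p.Prime → i ≤ v → v ≤ m →
  ((Fintype.piFinset fun _ : Fin d => range (p ^ m)).filter fun a =>
    Pool.Agent.H26.LV.Vge p v (Pool.Agent.H26.LV.dsc p i (y : ℤ) (Fp a)) ∧
    ∀ j : Fin d, j.val = 0 → (p : ℤ) ^ (v - i) ∣
      -(a j : ℤ) - (Polynomial.derivative (Fp a)).eval (y : ℤ)).card ≤
    p ^ (m - (v - i)) * ∏ j ∈ Icc 2 d, p ^ (m - (v - i * j))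

/-- ZER: a sum which vanishes. -/
def T_ZER : Prop := ∀ (d p m : ℕ) (a : Fin d → ℕ), p.Prime → 1 ≤ m →
  (∀ j : Fin d, j.val ≠ 0 → p ∣ a j) → (∃ j : Fin d, j.val = 0 ∧ ¬ p ∣ a j) →
  Sq (p ^ m) (fun i => (a i : ℤ)) = 0

/-- WPM: prime powers. -/
def T_WPM : Prop := ∀ k : ℕ, 3 ≤ k → ∃ C : ℝ, ∃ A : ℕ, 1 ≤ C ∧ ∀ p m : ℕ, p.Prime →
  Wd (k - 1) (KN k) (p ^ m) ≤ C * ((m : ℝ) + 1) ^ A / (p : ℝ) ^ m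

/-- WQT: all moduli. -/
def T_WQT : Prop := ∀ k : ℕ, 3 ≤ k → ∃ s₁ : ℕ, ∀ q : ℕ, 1 ≤ q →
  Wd (k - 1) (KN k) q ≤ (tau q : ℝ) ^ s₁ / q

/-- DSM: moments of the divisor function, and Rankin's trick. -/
def T_DSM : Prop := ∀ (s A Q : ℕ) (Y : ℝ), 1 ≤ Q → 1 ≤ Y →
  ∑ q ∈ (Icc 1 Q).filter (fun q => Y < (tau q : ℝ)), (tau q : ℝ) ^ s / q ≤
    (1 + Real.log Q) ^ (2 ^ (s + A)) / Y ^ A

/-! ### The real place -/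

/-- PCS: the estimate of Arkhipov, Karatsuba and Chubarikov. -/
def T_PCS : Prop := ∀ d : ℕ, ∃ C : ℝ, 1 ≤ C ∧ ∀ (P : ℝ[X]) (a b H : ℝ), P.natDegree ≤ d →
  -1 ≤ a → a ≤ b → b ≤ 1 → 0 < H →
  (∀ y ∈ Set.Icc a b, ∃ r : ℕ, 1 ≤ r ∧ r ≤ d ∧ H ^ r ≤ |(Polynomial.hasseDeriv r P).eval y|) →
  ‖OP P 0 a b‖ ≤ C / H

open Classical in
/-- RCN: the number of the small cells with a large kernel. -/
def T_RCN : Prop := ∀ k : ℕ, 3 ≤ k → ∃ C : ℝ, 1 ≤ C ∧ ∀ (N M₁ h D : ℕ) (y : ℝ), 1 ≤ M₁ → 1 ≤ h →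
  h < N → 1 ≤ y →
  (((Dc k D).filter fun c => 1 / y ≤ ‖KP N (ec N M₁ c) 0 h‖).card : ℝ) ≤
    C * y ^ (KN (k - 1) + 1) * ((M₁ : ℝ) * N / h) ^ (k - 1)

/-- RSM: the sum over the small cells. -/
def T_RSM : Prop := ∀ k : ℕ, 3 ≤ k → ∃ C : ℝ, 1 ≤ C ∧ ∀ (N M₁ h D : ℕ), 1 ≤ M₁ → 1 ≤ h → h < N →
  ∑ c ∈ Dc k D, ‖KP N (ec N M₁ c) 0 h‖ ^ (KN k) ≤ C * ((M₁ : ℝ) * N / h) ^ (k - 1)

/-! ### Abnormal denominators -/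

open Classical in
/-- ABQ: one denominator. -/
def T_ABQ : Prop := ∀ k : ℕ, 3 ≤ k → ∃ C : ℝ, ∃ s₂ : ℕ, 1 ≤ C ∧ ∀ N M₁ q D : ℕ, 1 ≤ N → 1 ≤ M₁ →
  1 ≤ q → ∑ f ∈ (Fq k q).filter (fun f => Prim q f), ∑ c ∈ Dc k D, volume.real (SB q N M₁ f c) ≤
    C * (1 + Real.log N) ^ (KN k) * ((N : ℝ) ^ (KN k - 1) * (M₁ : ℝ) ^ (k - 1)) *
      ((tau q : ℝ) ^ s₂ / q)

/-- ABN: the points seen by the functional with a denominator which has many divisors. -/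
def T_ABN : Prop := ∀ k : ℕ, 3 ≤ k → ∀ A : ℕ, ∃ C : ℝ, ∃ B : ℕ, 1 ≤ C ∧ ∀ (N : ℕ) (R M' Y : ℝ),
  1 ≤ N → 1 ≤ R → 1 ≤ M' → 1 ≤ Y → 8 * M' ≤ N →
  volume.real (WQ k N R M' {q | Y < (tau q : ℝ)}) ≤
    C * ((1 + Real.log N) * (1 + Real.log R)) ^ B / Y ^ A

/-! ### Normal denominators -/

/-- ARX: the arithmetic majorant with the number of divisors. -/
def T_ARX : Prop := ∀ k : ℕ, 2 ≤ k → ∃ s₀ : ℕ, ∀ (q : ℕ) (f : Fin k → ℤ), 1 ≤ q → Prim q f →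
  Pool.Agent.H26.LV.Maj q (Al q f) ((tau q : ℝ) ^ s₀)
    ((tau q : ℝ) ^ s₀ * (q : ℝ) ^ (-(2 / (k : ℝ))))

/-- LOX: the points seen by the functional for one cell. -/
def T_LOX : Prop := ∀ k : ℕ, 3 ≤ k → ∃ s₀ : ℕ, 1 ≤ s₀ ∧ ∀ s : ℝ, 2 ≤ s → ∃ C : ℝ, 1 ≤ C ∧
  ∀ (N q : ℕ) (R M' Y : ℝ) (f : Fin k → ℤ) (c₀ : Fin k → ℝ), 1 ≤ N → 1 ≤ q → (q : ℝ) ≤ R →
    1 ≤ M' → (tau q : ℝ) ^ s₀ ≤ Y → C * Y * (1 + Real.log (R * M')) * M' ≤ N → Prim q f →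
    (∀ i, |c₀ i| ≤ R + 3) →
    ∃ S : Set UnitAddCircle,
      volume.real S ≤ C * Y ^ s * M' ^ s * ((q : ℝ) * Lam c₀) ^ (-(2 / (k : ℝ) * (s - 1))) / N ∧
      ∀ (η : Fin k → ℝ) (τ ξ : ℝ), (∀ i : Fin k, i.val ≠ 0 → |η i * (N : ℝ) ^ (i.val + 1) -
        c₀ i| ≤ 1) → -1 ≤ τ → τ ≤ 0 → 1 / M' ≤ VF q f N η τ ξ → (ξ : UnitAddCircle) ∈ S

/-- MEX: the points seen by the functional with a denominator which has few divisors. -/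
def T_MEX : Prop := ∀ k : ℕ, 3 ≤ k → ∃ s₀ : ℕ, 1 ≤ s₀ ∧ ∀ s : ℝ, (k : ℝ) ^ 2 / 2 + 1 < s →
  ∃ C : ℝ, 1 ≤ C ∧ ∀ (N : ℕ) (R M' Y : ℝ), 1 ≤ N → 1 ≤ R → 1 ≤ M' → 1 ≤ Y →
    C * Y * (1 + Real.log (R * M')) * M' ≤ N →
    (N : ℝ) ^ (KN k) * volume.real (WQ k N R M' {q | (tau q : ℝ) ^ s₀ ≤ Y}) ≤ C * Y ^ s * M' ^ s

/-! ### Result -/

/-- MX: the measure of the points seen by the functional just above the mean. -/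
def T_MX : Prop := ∀ k : ℕ, 3 ≤ k → ∀ CR : ℝ, 1 ≤ CR → ∀ A : ℕ, ∃ c C : ℝ, ∃ B : ℕ, 0 < c ∧
  1 ≤ C ∧ ∀ (N : ℕ) (M' : ℝ), 1 ≤ N → 1 ≤ M' → C * (1 + Real.log N) ^ 2 * M' ≤ N →
    volume.real (WS k N ((N : ℝ) ^ CR) M') ≤
      C * ((N : ℝ) ^ (-c) + (1 + Real.log N) ^ B * (M' / N) ^ A)

end Pool.Agent.H65.EN
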