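import Pool.Agent.H24.LVP.All
import Pool.Agent.H36.EN.EXV
import Pool.Agent.H5.EN.KLI
import Pool.Agent.H1.EN.COX
import Pool.Agent.H95.EN.BXX
import Pool.Agent.H69.EN.PXC
import Pool.Agent.H68.EN.TRI
import Pool.Agent.H12.EN.CON1
import Pool.Agent.H68.EN.UNF
import Pool.Agent.H13.ENX.MUW
import Pool.Agent.H30.EN.NOD
import Pool.Agent.H49.EN.CND
import Pool.Agent.H2.EN.ZER
import Pool.Agent.H85.EN.WPM
import Pool.Agent.H19.EN.WQT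
import Pool.Agent.H55.EN.DSM
import Pool.Agent.H30.EN.PCS
import Pool.Agent.H57.EN.RCN
import Pool.Agent.H94.EN.RSM
import Pool.Agent.H50.EN.ABQ
import Pool.Agent.H72.EN.ABN
import Pool.Agent.H46.EN.ARX
import Pool.Agent.H1.EN.LOX
import Pool.Agent.H32.EN.MEX
import Pool.Agent.H97.EN.MX

/-!
# The end without loss in the mean: the closed theorems (helper65)

Rows of the board `enx_modules`; page H65_E21_END.md.
-/

set_option autoImplicit false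

namespace Pool.Agent.H65.EN

open Pool.Agent.H24.LVP Pool.Agent.H65.EN

theorem xEXV : Pool.Agent.H65.EN.T_EXV :=
  Pool.Agent.H36.EN.pf_EXV awPV awEC

theorem xKLI : Pool.Agent.H65.EN.T_KLI :=
  Pool.Agent.H5.EN.pf_KLI

theorem xCOX : Pool.Agent.H65.EN.T_COX :=
  Pool.Agent.H1.EN.pf_COX eAMD

theorem xBXX : Pool.Agent.H65.EN.T_BXX :=
  Pool.Agent.H95.EN.pf_BXX eARC

theorem xPXC : Pool.Agent.H65.EN.T_PXC :=
  Pool.Agent.H69.EN.pf_PXC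

theorem xTRI : Pool.Agent.H65.EN.T_TRI :=
  Pool.Agent.H68.EN.pf_TRI

theorem xCON : Pool.Agent.H65.EN.T_CON :=
  Pool.Agent.H12.EN.pf_CON

theorem xUNF : Pool.Agent.H65.EN.T_UNF :=
  Pool.Agent.H68.EN.pf_UNF xTRI xCON

theorem xMUW : Pool.Agent.H65.EN.T_MUW :=
  Pool.Agent.H13.ENX.pf_MUW

theorem xNOD : Pool.Agent.H65.EN.T_NOD :=
  Pool.Agent.H30.EN.NOD.pf_NOD pTER pFLT pNGA pNGB pVAL pTRE

theorem xCND : Pool.Agent.H65.EN.T_CND :=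
  Pool.Agent.H49.EN.pf_CND xTRI pVAL

theorem xZER : Pool.Agent.H65.EN.T_ZER :=
  Pool.Agent.H2.EN.pf_ZER

theorem xWPM : Pool.Agent.H65.EN.T_WPM :=
  Pool.Agent.H85.EN.pf_WPM xNOD xCND xZER

theorem xWQT : Pool.Agent.H65.EN.T_WQT :=
  Pool.Agent.H19.EN.pf_WQT xWPM xMUW

theorem xDSM : Pool.Agent.H65.EN.T_DSM :=
  Pool.Agent.H55.EN.pf_DSM

theorem xPCS : Pool.Agent.H65.EN.T_PCS :=
  Pool.Agent.H30.EN.pf_PCS

theorem xRCN : Pool.Agent.H65.EN.T_RCN :=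
  Pool.Agent.H57.EN.pf_RCN xPCS xTRI

theorem xRSM : Pool.Agent.H65.EN.T_RSM :=
  Pool.Agent.H94.EN.pf_RSM xRCN

theorem xABQ : Pool.Agent.H65.EN.T_ABQ :=
  Pool.Agent.H50.EN.pf_ABQ xPXC xCON xUNF xWQT xRSM

theorem xABN : Pool.Agent.H65.EN.T_ABN :=
  Pool.Agent.H72.EN.pf_ABN xEXV xKLI xCOX xBXX xABQ xDSM

theorem xARX : Pool.Agent.H65.EN.T_ARX :=
  Pool.Agent.H46.EN.pf_ARX pPPA pPPB pMUL

theorem xLOX : Pool.Agent.H65.EN.T_LOX :=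
  Pool.Agent.H1.EN.pf_LOX eRMC eGIS eFUN eBND eMKV eCIN xARX

theorem xMEX : Pool.Agent.H65.EN.T_MEX :=
  Pool.Agent.H32.EN.pf_MEX xLOX eQSM eCSM xCOX xBXX

theorem eMX : Pool.Agent.H65.EN.T_MX :=
  Pool.Agent.H97.EN.pf_MX xABN xMEX

end Pool.Agent.H65.EN
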