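import Pool.Agent.H50.LV.Targets
import Pool.Agent.H31.LV.Targets
import Pool.Agent.H24.LV.TargetsM

/-!
# The end without loss in the mean: definitions (helper65)

Page: H65_E21_END.md. Notation: `F = ∑_{i ≥ 1} f_i z^(i+1)`, `ψ = ∑_{i ≥ 1} η_i x^(i+1)`,
`Δ_h F = F(z + h) - F(z)`.
-/

set_option autoImplicit false

open Finset MeasureTheory
open scoped Polynomial

namespace Pool.Agent.H65.EN

open Pool.Agent.H24.CL Pool.Agent.H24.LV Pool.Agent.H31.LV Pool.Agent.H50.LV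

/-- the number of divisors -/
def tau (q : ℕ) : ℕ := q.divisors.card

/-- the points seen by the functional with a denominator in `Q` -/
def WQ (k N : ℕ) (R M' : ℝ) (Q : Set ℕ) : Set (X k) :=
  {w | ∃ (q : ℕ) (f : Fin k → ℤ) (η : Fin k → ℝ) (τ ξ : ℝ), q ∈ Q ∧ 1 ≤ q ∧ (q : ℝ) ≤ R ∧
    (∀ i : Fin k, i.val ≠ 0 → w i = (((f i : ℝ) / q + η i : ℝ) : UnitAddCircle)) ∧
    (∀ d : ℕ, d ∣ q → (∀ i : Fin k, i.val ≠ 0 → (d : ℤ) ∣ f i) → d = 1) ∧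
    (∀ i : Fin k, i.val ≠ 0 → |η i| ≤ R * (N : ℝ) ^ (-((i.val : ℝ) + 1))) ∧ -1 ≤ τ ∧ τ ≤ 0 ∧
    (∀ i : Fin k, i.val = 0 → w i = (ξ : UnitAddCircle)) ∧ 1 / M' ≤ VF q f N η τ ξ}

/-- `E_z e((F(z + h) - F(z))/q)` -/
noncomputable def GF {k : ℕ} (q : ℕ) (f : Fin k → ℤ) (h : ℕ) : ℂ :=
  (1 / (q : ℂ)) * ∑ z ∈ range q, ee (((Fz f ((z : ℤ) + h) - Fz f (z : ℤ) : ℤ) : ℝ) / q)

/-- `N⁻¹ ∫_τ^(τ+N-h) e(ψ(y + h) - ψ(y)) dy` -/
noncomputable def KP {k : ℕ} (N : ℕ) (η : Fin k → ℝ) (τ : ℝ) (h : ℕ) : ℂ :=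
  (1 / (N : ℂ)) * ∫ y in τ..(τ + N - h), ee (Ps η (y + h) - Ps η y)

/-- the coefficient of `z^(j+1)` in `F(z + h) - F(z)` -/
def dz {k : ℕ} (f : Fin k → ℤ) (h j : ℕ) : ℤ :=
  ∑ i : Fin k, if i.val ≤ j then 0 else
    f i * (Nat.choose (i.val + 1) (j + 1) : ℤ) * (h : ℤ) ^ (i.val - j)

/-- the content of `Δ_h F` modulo `q` -/
def ct {k : ℕ} (q : ℕ) (f : Fin k → ℤ) (h : ℕ) : ℕ :=
  Nat.gcd q ((range (k - 1)).gcd fun j => (dz f h j).natAbs)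

/-- the moment of order `s` of the complete sums of degree `d` modulo `q` over the primitive
coefficients -/
noncomputable def Wd (d s q : ℕ) : ℝ := ∑ a ∈ Red d q, ‖Sq q (fun i : Fin d => (a i : ℤ))‖ ^ s

/-- the coefficients at the corner of the small cell `c` -/
noncomputable def ec {k : ℕ} (N M₁ : ℕ) (c : Fin k → ℤ) (i : Fin k) : ℝ :=
  (c i : ℝ) / ((M₁ : ℝ) * (N : ℝ) ^ (i.val + 1))

/-- the points whose coordinates `i ≥ 1` lie in the small cell `c` around `f/q` -/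
def BxM {k : ℕ} (M₁ N q : ℕ) (f c : Fin k → ℤ) (S : Set UnitAddCircle) (i : Fin k) :
    Set UnitAddCircle :=
  if i.val = 0 then S else (fun x : ℝ => (x : UnitAddCircle)) ''
    Set.Icc ((f i : ℝ) / q + c i / ((M₁ : ℝ) * (N : ℝ) ^ (i.val + 1)))
      ((f i : ℝ) / q + (c i + 1) / ((M₁ : ℝ) * (N : ℝ) ^ (i.val + 1)))

/-- the points `y` for which the sum over the shifts is large -/
def SB {k : ℕ} (q N M₁ : ℕ) (f c : Fin k → ℤ) : Set UnitAddCircle :=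
  {y | 1 ≤ ‖∑ h ∈ Ico 1 N, (GF q f h * KP N (ec N M₁ c) 0 h) * e (h • y)‖}

/-- the polynomial `∑_{j ≥ 1} a_j X^(j+1)` -/
noncomputable def Fp {d : ℕ} (a : Fin d → ℕ) : ℤ[X] :=
  ∑ j : Fin d, if j.val = 0 then 0 else Polynomial.C (a j : ℤ) * Polynomial.X ^ (j.val + 1)

end Pool.Agent.H65.EN
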